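import Pool.Agent.J4H95.SP.Compl
import Pool.Agent.J4H57.SP.Cnt
import Pool.Agent.J4H57.SP.Deg
import Pool.Agent.J4H87.SP.Acp
import Pool.Agent.J4H21.SP.Comp
import Pool.Agent.J4H17.SP.Asm

set_option autoImplicit false

/-! The sparsification lemma in constant depth. -/

namespace Pool.Agent.J4H95.SP

open Finset Pool.Agent.J4H64.SS Pool.Agent.J4H17.SP

/-- the assignment `a` satisfies the clauses of `x` -/
def By {n : ℕ} (a : Fin n → Bool) (x : Cl n → Bool) : Prop :=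
  ∀ c : Cl n, x c = true → ∃ l ∈ c.1, a l.1 = l.2

theorem by_iff {n : ℕ} (a : Fin n → Bool) (x : Cl n → Bool) : By a x ↔ Hits (Tr a) (Hyp x) := by
  constructor
  · intro ha e he
    obtain ⟨h, hx⟩ := he
    obtain ⟨l, hl, hl'⟩ := ha ⟨e, h⟩ hx
    exact ⟨l, hl, (mem_Tr a l).2 hl'⟩
  · intro ha c hc
    obtain ⟨l, hl, hl'⟩ := ha c.1 ⟨c.2, hc⟩
    exact ⟨l, hl, (mem_Tr a l).1 hl'⟩

theorem sparsify (ε : ℝ) (hε : 0 < ε) : ∃ k K d : ℕ, ∀ n : ℕ, 1 ≤ n →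
    ∃ (s : ℕ) (ψ : Fin s → (Cl n → Bool) → Cl n → Bool), (s : ℝ) ≤ (2 : ℝ) ^ (ε * (n : ℝ)) ∧
      (∀ t q, ∃ C : Circ (Cl n), C.WF ∧ C.Depth d ∧ C.m ≤ (2 * n) ^ K ∧
        ∀ x, C.Acc x ↔ ψ t x q = true) ∧
      (∀ t x (l : Fin n × Bool),
        (univ.filter (fun c : Cl n => ψ t x c = true ∧ l ∈ c.1)).card ≤ k) ∧
      (∀ t x a, By a (ψ t x) → By a x) ∧ ∀ x a, By a x → ∃ t, By a (ψ t x) := by
  classical
  obtain ⟨γ, hγ, hC⟩ := J4H57.SP.t_CNT (ε / 2) (by positivity)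
  obtain ⟨b, hb1, hbγ⟩ : ∃ b : ℕ, 1 ≤ b ∧ 2 / γ ≤ b :=
    ⟨⌈2 / γ⌉₊ + 1, by omega, (Nat.le_ceil _).trans (by push_cast; linarith)⟩
  set c : ℕ := 2 * b ^ 2 with hc
  have hc1 : 1 ≤ c := by
    have : 1 ≤ b ^ 2 := Nat.one_le_pow _ _ (by omega)
    omega
  have hbc : b ≤ c := by
    have : b ≤ b ^ 2 := by nlinarith
    omega
  obtain ⟨K, d₀, hP⟩ := J4H87.SP.t_ACP b c hb1 hc1
  refine ⟨1 + b + 2 * c + 2 * c * (2 * c), (K + 1) * (2 * d₀), d₀ + 1, fun n hn => ?_⟩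
  let β : Type := {Z : Finset (Fin n × Bool) // (Z.card : ℝ) ≤ γ * Fintype.card (Fin n × Bool)}
  let e := Fintype.equivFin β
  refine ⟨Fintype.card β, fun t => Ind b c (e.symm t).1, ?_, ?_, ?_, ?_, ?_⟩
  · have h1 := hC (Fin n × Bool)
    have h2 : Fintype.card β = (univ.filter (fun Z : Finset (Fin n × Bool) =>
        (Z.card : ℝ) ≤ γ * Fintype.card (Fin n × Bool))).card := by
      rw [Fintype.card_subtype]
    rw [h2]
    refine le_trans ?_ (h1.trans ?_)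
    · apply le_of_eq
      congr 2
    · apply Real.rpow_le_rpow_of_exponent_le (by norm_num)
      simp only [Fintype.card_prod, Fintype.card_fin, Fintype.card_bool]
      push_cast
      linarith
  · intro t q
    have hw2 : 2 ≤ (2 * n) ^ (K + 1) := by
      calc 2 ≤ 2 * n := by omega
        _ = (2 * n) ^ 1 := (pow_one _).symm
        _ ≤ (2 * n) ^ (K + 1) := Nat.pow_le_pow_right (by omega) (by omega)
    have hwK : (2 * n) ^ K ≤ (2 * n) ^ (K + 1) := Nat.pow_le_pow_right (by omega) (by omega)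
    obtain ⟨C, g1, g2, g3, g4⟩ := J4H21.SP.tree q ((2 * n) ^ (K + 1)) hw2 d₀ _
      (AC.mono hwK (hP n hn (e.symm t).1 q))
    refine ⟨C, g1, g2, ?_, fun x => ?_⟩
    · rwa [← pow_mul] at g3
    · rw [g4]
      simp only [Ind, decide_eq_true_eq]
  · intro t x l
    exact ind_sparse J4H57.SP.t_DEG b c hb1 hc1 _ x l
  · intro t x a ha
    rw [by_iff, hits_ind] at ha
    rw [by_iff]
    exact t_SOUND _ b c _ (Hyp x) (fun e he => Hyp_card he) _ ha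
  · intro x a ha
    rw [by_iff] at ha
    obtain ⟨Z, hZ, hZ'⟩ := t_COMPL (Fin n × Bool) b c hb1 hbc (Hyp x) (Tr a) ha
    have hZγ : (Z.card : ℝ) ≤ γ * Fintype.card (Fin n × Bool) := by
      have h0 : ((Z.card * (b * (2 * b ^ 2)) : ℕ) : ℝ) ≤
          (((2 * b ^ 2 + 2 * b ^ 2) * Fintype.card (Fin n × Bool) : ℕ) : ℝ) :=
        Nat.cast_le.2 hZ
      have hV0 : (0 : ℝ) ≤ (Fintype.card (Fin n × Bool) : ℝ) := Nat.cast_nonneg _
      rw [Nat.cast_mul, Nat.cast_mul] at h0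
      push_cast at h0
      have hb0 : (0 : ℝ) < b := by exact_mod_cast hb1
      rw [div_le_iff₀ hγ] at hbγ
      set N : ℝ := (Fintype.card (Fin n × Bool) : ℝ) with hN
      have h1 : (Z.card : ℝ) * b * (2 * (b : ℝ) ^ 2) ≤ 2 * N * (2 * (b : ℝ) ^ 2) := by
        push_cast at h0 ⊢
        nlinarith
      have h2 : (Z.card : ℝ) * b ≤ 2 * N := le_of_mul_le_mul_right h1 (by positivity)
      have h3 : (Z.card : ℝ) * b ≤ γ * N * b := by nlinarith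
      exact le_of_mul_le_mul_right h3 hb0
    refine ⟨e ⟨Z, hZγ⟩, ?_⟩
    rw [by_iff, hits_ind, Equiv.symm_apply_apply]
    exact hZ'

end Pool.Agent.J4H95.SP
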