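import Pool.Agent.J4H95.SP.Def2

set_option autoImplicit false

namespace Pool.Agent.J4H95.SP

open Finset Pool.Agent.J4H64.SS

theorem iter {k : ℕ} (f : Fin (2 * k) → Bool) (h : ∀ t, f t = true → f (nxt t) = true)
    (t : Fin (2 * k)) (ht : f t = true) (j : ℕ) :
    f ⟨(t.1 + j) % (2 * k), Nat.mod_lt _ (by have := t.2; omega)⟩ = true := by
  induction j with
  | zero =>
    have : (⟨(t.1 + 0) % (2 * k), Nat.mod_lt _ (by have := t.2; omega)⟩ : Fin (2 * k)) = t := by
      apply Fin.ext
      simp [Nat.mod_eq_of_lt t.2]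
    rw [this]
    exact ht
  | succ j ih =>
    have h1 := h _ ih
    have : nxt (⟨(t.1 + j) % (2 * k), Nat.mod_lt _ (by have := t.2; omega)⟩ : Fin (2 * k)) =
        ⟨(t.1 + (j + 1)) % (2 * k), Nat.mod_lt _ (by have := t.2; omega)⟩ := by
      apply Fin.ext
      simp only [nxt]
      rw [← add_assoc, Nat.add_mod (t.1 + j) 1, Nat.add_mod ((t.1 + j) % (2 * k)) 1,
        Nat.mod_mod]
    rw [← this]
    exact h1

theorem all_eq {k : ℕ} (f : Fin (2 * k) → Bool) (h : ∀ t, f t = true → f (nxt t) = true)
    (t s : Fin (2 * k)) : f t = f s := by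
  have key : ∀ t s : Fin (2 * k), f t = true → f s = true := by
    intro t s ht
    have h1 := iter f h t ht (s.1 + 2 * k - t.1)
    have : (⟨(t.1 + (s.1 + 2 * k - t.1)) % (2 * k), Nat.mod_lt _ (by have := t.2; omega)⟩ :
        Fin (2 * k)) = s := by
      apply Fin.ext
      have ht2 := t.2
      have : t.1 + (s.1 + 2 * k - t.1) = s.1 + 2 * k := by omega
      simp only [this, Nat.add_mod_right]
      exact Nat.mod_eq_of_lt s.2
    rwa [this] at h1
  cases h1 : f t with
  | true => exact (key t s h1).symm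
  | false =>
    cases h2 : f s with
    | false => rfl
    | true => rw [key s t h2] at h1; exact h1.symm

theorem t_T2 : S_T2 := by
  intro n k hk x _
  constructor
  · rintro ⟨a, ha⟩
    have hcyc : ∀ v t, a (cp k v t) = true → a (cp k v (nxt t)) = true := by
      intro v t ht
      have hc : (cyc k v t).card ≤ 3 := (card_le_two).trans (by norm_num)
      obtain ⟨l, hl, hl'⟩ := ha ⟨cyc k v t, hc⟩ (by
        simp only [Tov, decide_eq_true_eq]
        exact Or.inl ⟨v, t, rfl⟩)
      simp only [cyc, mem_insert, mem_singleton] at hl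
      rcases hl with rfl | rfl
      · simp only at hl'
        rw [ht] at hl'
        simp at hl'
      · exact hl'
    have h0 : 0 < 2 * k := by omega
    refine ⟨fun v => a (cp k v ⟨0, h0⟩), fun c hc => ?_⟩
    have hcard : (img k hk x c).card ≤ 3 := card_image_le.trans c.2
    obtain ⟨l, hl, hl'⟩ := ha ⟨img k hk x c, hcard⟩ (by
      simp only [Tov, decide_eq_true_eq]
      exact Or.inr ⟨c, hc, rfl⟩)
    simp only [img, mem_image] at hl
    obtain ⟨m, hm, rfl⟩ := hl
    refine ⟨m, hm, ?_⟩
    rw [← hl']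
    exact all_eq (fun t => a (cp k m.1 t)) (hcyc m.1) _ _
  · rintro ⟨a, ha⟩
    refine ⟨fun v => a (finProdFinEquiv.symm v).1, fun q hq => ?_⟩
    have hcp : ∀ v t, (fun v => a (finProdFinEquiv.symm v).1) (cp k v t) = a v := by
      intro v t
      simp [cp]
    simp only [Tov, decide_eq_true_eq] at hq
    rcases hq with ⟨v, t, hq⟩ | ⟨c, hc, hq⟩
    · rw [hq]
      cases hav : a v with
      | false =>
        refine ⟨(cp k v t, false), by simp [cyc], ?_⟩
        exact (hcp v t).trans hav
      | true =>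
        refine ⟨(cp k v (nxt t), true), by simp [cyc], ?_⟩
        exact (hcp v (nxt t)).trans hav
    · obtain ⟨l, hl, hl'⟩ := ha c hc
      rw [hq]
      refine ⟨(cp k l.1 (slot k hk l.2 (rk x l c)), l.2), ?_, ?_⟩
      · simp only [img, mem_image]
        exact ⟨l, hl, rfl⟩
      · exact (hcp _ _).trans hl'

end Pool.Agent.J4H95.SP
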