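import Pool.Agent.J4H95.SP.Def2
import Pool.Agent.J4H87.SP.Acp

set_option autoImplicit false

namespace Pool.Agent.J4H95.SP

open Finset Pool.Agent.J4H64.SS Pool.Agent.J4H87.SP

theorem card_Cl_le (n : ℕ) (hn : 1 ≤ n) : Fintype.card (Cl n) ≤ (2 * n) ^ 4 := by
  classical
  have h1 : Fintype.card (Cl n) =
      (univ.filter (fun c : Finset (Fin n × Bool) => c.card ≤ 3)).card := by
    rw [Fintype.card_subtype]
  have h2 : (univ.filter (fun c : Finset (Fin n × Bool) => c.card ≤ 3)) ⊆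
      (range 4).biUnion (fun i => powersetCard i univ) := by
    intro c hc
    rw [mem_filter] at hc
    rw [mem_biUnion]
    exact ⟨c.card, by rw [mem_range]; omega, by rw [mem_powersetCard]; exact ⟨subset_univ _, rfl⟩⟩
  have hN : Fintype.card (Fin n × Bool) = 2 * n := by
    simp [Fintype.card_prod, mul_comm]
  rw [h1]
  refine (card_le_card h2).trans (card_biUnion_le.trans ?_)
  simp only [card_powersetCard, card_univ, hN]
  have h3 : ∀ i, (2 * n).choose i ≤ (2 * n) ^ i := fun i => Nat.choose_le_pow _ _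
  rw [sum_range_succ, sum_range_succ, sum_range_succ, sum_range_one]
  have e0 := h3 0
  have e1 := h3 1
  have e2 := h3 2
  have e3 := h3 3
  set N := 2 * n with hNd
  have hN2 : 2 ≤ N := by omega
  have f1 : N * N ^ 3 = N ^ 4 := by ring
  have f2 : N * N ^ 2 = N ^ 3 := by ring
  have f3 : N * N ^ 1 = N ^ 2 := by ring
  have g3 : 2 * N ^ 3 ≤ N * N ^ 3 := Nat.mul_le_mul_right _ hN2
  have g2 : 2 * N ^ 2 ≤ N * N ^ 2 := Nat.mul_le_mul_right _ hN2
  have g1 : 2 * N ^ 1 ≤ N * N ^ 1 := Nat.mul_le_mul_right _ hN2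
  have g0 : 2 ≤ N ^ 1 := by rw [pow_one]; exact hN2
  rw [pow_zero] at e0
  omega

section
variable {n w : ℕ}

theorem ac_rk (hw : 2 ≤ w) (j : ℕ) (hj : Fintype.card (Fin j → Cl n) ≤ w) (hj' : j ≤ w)
    (l : Fin n × Bool) (c : Cl n) : AC w 20 (fun x : Cl n → Bool => j ≤ rk x l c) := by
  classical
  have e : (fun x : Cl n → Bool => j ≤ rk x l c) = fun x => ∃ f : Fin j → Cl n,
      Function.Injective f ∧ ∀ i, x (f i) = true ∧ (l ∈ (f i).1 ∧
        Fintype.equivFin (Cl n) (f i) < Fintype.equivFin (Cl n) c) := by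
    funext x
    apply propext
    rw [← exS j (fun c' : Cl n => x c' = true ∧ (l ∈ c'.1 ∧
        Fintype.equivFin (Cl n) c' < Fintype.equivFin (Cl n) c))]
    constructor
    · intro h
      obtain ⟨S, hS, hSc⟩ := exists_subset_card_eq h
      refine ⟨S, hSc, fun c' hc' => ?_⟩
      have := hS hc'
      rw [mem_filter] at this
      exact this.2
    · rintro ⟨S, hS, h⟩
      rw [← hS]
      unfold rk
      apply card_le_card
      intro c' hc'
      rw [mem_filter]
      exact ⟨mem_univ _, h c' hc'⟩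
  rw [e]
  refine mono (ac_ex hj fun f => ac_cand (d := 12) (mono (ac_all (by simpa using hj') fun i =>
    ac_and hw (AC.inp 0 (f i)) (ac_const _)) (by norm_num))) (by norm_num)

theorem ac_min (hw : 2 ≤ w) (k : ℕ) (hk : 1 ≤ k) (hj : ∀ j, j ≤ k → Fintype.card (Fin j → Cl n) ≤ w)
    (hj' : k ≤ w) (l : Fin n × Bool) (c : Cl n) (j : Fin k) :
    AC w 30 (fun x : Cl n → Bool => min (rk x l c) (k - 1) = j.1) := by
  classical
  have hjk := j.2
  by_cases h : j.1 = k - 1
  · have e : (fun x : Cl n → Bool => min (rk x l c) (k - 1) = j.1) = fun x => j.1 ≤ rk x l c := by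
      funext x
      apply propext
      omega
    rw [e]
    exact mono (ac_rk hw j.1 (hj _ hjk.le) (hjk.le.trans hj') l c) (by norm_num)
  · have e : (fun x : Cl n → Bool => min (rk x l c) (k - 1) = j.1) =
        fun x => j.1 ≤ rk x l c ∧ ¬ (j.1 + 1 ≤ rk x l c) := by
      funext x
      apply propext
      omega
    rw [e]
    exact mono (ac_and hw (ac_rk hw j.1 (hj _ hjk.le) (hjk.le.trans hj') l c)
      (AC.neg (ac_rk hw (j.1 + 1) (hj _ hjk) (le_trans hjk hj') l c))) (by norm_num)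

theorem img_eq {k : ℕ} (hk : 1 ≤ k) (x : Cl n → Bool) (c : Cl n)
    (q : Finset (Fin (n * (2 * k)) × Bool)) :
    q = img k hk x c ↔ ∃ g : {l // l ∈ c.1} → Fin k,
      (∀ l, min (rk x l.1 c) (k - 1) = (g l).1) ∧
      q = c.1.attach.image (fun l => (cp k l.1.1 (slot k hk l.1.2 (g l).1), l.1.2)) := by
  classical
  have key : ∀ g : {l // l ∈ c.1} → Fin k, (∀ l, min (rk x l.1 c) (k - 1) = (g l).1) →
      c.1.attach.image (fun l => (cp k l.1.1 (slot k hk l.1.2 (g l).1), l.1.2)) =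
        img k hk x c := by
    intro g hg
    have hs : ∀ l : {l // l ∈ c.1}, slot k hk l.1.2 (g l).1 = slot k hk l.1.2 (rk x l.1 c) := by
      intro l
      apply Fin.ext
      simp only [slot, ← hg l]
      omega
    ext m
    simp only [img, mem_image, mem_attach, true_and, Subtype.exists]
    constructor
    · rintro ⟨l, hl, rfl⟩
      refine ⟨l, hl, ?_⟩
      rw [← hs ⟨l, hl⟩]
    · rintro ⟨l, hl, rfl⟩
      refine ⟨l, hl, ?_⟩
      rw [← hs ⟨l, hl⟩]
  constructor
  · intro h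
    refine ⟨fun l => ⟨min (rk x l.1 c) (k - 1), by omega⟩, fun l => rfl, ?_⟩
    rw [key _ (fun l => rfl)]
    exact h
  · rintro ⟨g, hg, h⟩
    rw [h, key g hg]

end

theorem t_T3 : S_T3 := by
  classical
  intro k hk
  refine ⟨4 * k + k ^ 3 + 4, 60, fun n hn q => ?_⟩
  set N := 2 * n with hN
  have hN2 : 2 ≤ N := by omega
  set w := N ^ (4 * k + k ^ 3 + 4) with hw
  have hpow : ∀ a, a ≤ 4 * k + k ^ 3 + 4 → N ^ a ≤ w := fun a ha =>
    Nat.pow_le_pow_right (by omega) ha
  have hw2 : 2 ≤ w := hN2.trans (by simpa using hpow 1 (by omega))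
  have hlt : ∀ a, a ≤ N ^ a := fun a => (Nat.lt_pow_self (by omega)).le
  have hkw : k ≤ w := (hlt k).trans (hpow k (by omega))
  have hCl : Fintype.card (Cl n) ≤ w := (card_Cl_le n hn).trans (hpow 4 (by omega))
  have hfun : ∀ j, j ≤ k → Fintype.card (Fin j → Cl n) ≤ w := by
    intro j hj
    rw [Fintype.card_fun, Fintype.card_fin]
    calc Fintype.card (Cl n) ^ j ≤ (N ^ 4) ^ j := Nat.pow_le_pow_left (card_Cl_le n hn) j
      _ = N ^ (4 * j) := by rw [pow_mul]
      _ ≤ w := hpow _ (by omega)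
  have hfun2 : ∀ c : Cl n, Fintype.card ({l // l ∈ c.1} → Fin k) ≤ w := by
    intro c
    rw [Fintype.card_fun, Fintype.card_fin, Fintype.card_coe]
    calc k ^ c.1.card ≤ k ^ 3 := Nat.pow_le_pow_right hk c.2
      _ ≤ N ^ (k ^ 3) := hlt _
      _ ≤ w := hpow _ (by omega)
  have hfin : ∀ c : Cl n, Fintype.card {l // l ∈ c.1} ≤ w := by
    intro c
    rw [Fintype.card_coe]
    calc c.1.card ≤ 3 := c.2
      _ ≤ N ^ 4 := by
        calc 3 ≤ 2 ^ 4 := by norm_num
          _ ≤ N ^ 4 := Nat.pow_le_pow_left hN2 4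
      _ ≤ w := hpow 4 (by omega)
  have e : (fun x : Cl n → Bool => Tov k hk x q = true) = fun x =>
      (∃ v t, q.1 = cyc k v t) ∨ ∃ c : Cl n, x c = true ∧ ∃ g : {l // l ∈ c.1} → Fin k,
        (∀ l, min (rk x l.1 c) (k - 1) = (g l).1) ∧
        q.1 = c.1.attach.image (fun l => (cp k l.1.1 (slot k hk l.1.2 (g l).1), l.1.2)) := by
    funext x
    simp only [Tov, decide_eq_true_eq, img_eq]
  rw [e]
  refine mono (ac_or hw2 (ac_const _) (ac_ex hCl fun c => ac_and hw2 (AC.inp 0 c)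
    (ac_ex (hfun2 c) fun g => ac_and hw2 (ac_all (hfin c) fun l =>
      ac_min hw2 k hk hfun hkw l.1 c (g l)) (ac_const _)))) (by norm_num)

end Pool.Agent.J4H95.SP
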