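import Pool.Agent.J4H95.SP.T1
import Pool.Agent.J4H95.SP.T2
import Pool.Agent.J4H95.SP.T3
import Pool.Agent.J4H95.SP.Lem

set_option autoImplicit false

namespace Pool.Agent.J4H95.SP

open Finset Pool.Agent.J4H64.SS

theorem t_SUB : S_SUB := by
  classical
  intro I J _ hI _ w d d₀ D hw hWF hD F hF
  obtain ⟨i₀⟩ := hI
  have h := fun j => J4H21.SP.tree i₀ w hw d₀ _ (hF j)
  choose T h1 h2 h3 h4 using h
  obtain ⟨C, g1, g2, g3, g4⟩ := J4H21.SP.comp D T hWF h1 d (d₀ + 1) hD h2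
  refine ⟨C, g1, g2, ?_, fun x => ?_⟩
  · rw [g3]
    have : ∑ c, (T c).m ≤ Fintype.card J * w ^ (2 * d₀) := by
      refine (sum_le_sum fun c _ => h3 c).trans ?_
      simp
    omega
  · rw [g4]
    have : (fun c => decide ((T c).Acc x)) = F x := by
      funext c
      rw [Bool.eq_iff_iff, decide_eq_true_iff]
      exact h4 c x
    rw [this]

theorem SparseHyp_mono {δ : ℝ} {k k' : ℕ} (hk : k ≤ k') (h : SparseHyp δ k) : SparseHyp δ k' := by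
  intro d N₀
  obtain ⟨n, h1, h2, h3⟩ := h d N₀
  refine ⟨n, h1, h2, fun ⟨C, g1, g2, g3, g4⟩ => h3 ⟨C, g1, g2, g3, fun x hx => g4 x fun l => ?_⟩⟩
  exact (hx l).trans hk

theorem t_T4 : S_T4 := by
  classical
  intro hT1 hT2 hT3 hSUB
  rintro ⟨δ, hδ, k₀, hk₀⟩
  obtain ⟨k, hk, hS⟩ : ∃ k : ℕ, 1 ≤ k ∧ SparseHyp δ k :=
    ⟨k₀ + 1, by omega, SparseHyp_mono (by omega) hk₀⟩
  obtain ⟨K, d₀, hP⟩ := hT3 k hk
  obtain ⟨N₁, hN₁⟩ := J4H17.SP.poly_le (δ / 4) (by positivity) ((K + 1) * (2 * d₀) + 1)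
  have hk0 : (0 : ℝ) < k := by exact_mod_cast hk
  refine ⟨δ / 4 / (2 * k), by positivity, fun d N₀ => ?_⟩
  obtain ⟨n, hn, hn1, hno⟩ := hS (d + (d₀ + 1)) (max N₀ (max N₁ ⌈4 / δ⌉₊))
  have hnN₁ : N₁ ≤ n := (le_max_left _ _).trans ((le_max_right _ _).trans hn)
  have hnδ : 4 / δ ≤ n := by
    have h1 : ⌈4 / δ⌉₊ ≤ n := (le_max_right _ _).trans ((le_max_right _ _).trans hn)
    exact (Nat.le_ceil _).trans (by exact_mod_cast h1)
  have hnn : n ≤ n * (2 * k) := Nat.le_mul_of_pos_right _ (by omega)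
  refine ⟨n * (2 * k), ((le_max_left _ _).trans hn).trans hnn, hn1.trans hnn, ?_⟩
  rintro ⟨C, hwf, hd, hsize, hacc⟩
  refine hno ?_
  have hw2 : 2 ≤ (2 * n) ^ (K + 1) := by
    calc 2 ≤ 2 * n := by omega
      _ = (2 * n) ^ 1 := (pow_one _).symm
      _ ≤ (2 * n) ^ (K + 1) := Nat.pow_le_pow_right (by omega) (by omega)
  have hwK : (2 * n) ^ K ≤ (2 * n) ^ (K + 1) := Nat.pow_le_pow_right (by omega) (by omega)
  have hne : Nonempty (Cl n) := ⟨⟨∅, by simp⟩⟩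
  obtain ⟨C', g1, g2, g3, g4⟩ := hSUB (Cl n) (Cl (n * (2 * k))) ((2 * n) ^ (K + 1)) d d₀ C hw2 hwf hd
    (Tov k hk) (fun q => J4H17.SP.AC.mono hwK (hP n hn1 q))
  refine ⟨C', g1, g2, ?_, fun x hx => ?_⟩
  · -- sizes
    set X : ℝ := (2 : ℝ) ^ (δ / 4 * (n : ℝ)) with hX
    have hX2 : 2 ≤ X := by
      have h1 : (1 : ℝ) ≤ δ / 4 * n := by
        rw [div_le_iff₀ hδ] at hnδ
        linarith
      calc (2 : ℝ) = (2 : ℝ) ^ (1 : ℝ) := (Real.rpow_one 2).symm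
        _ ≤ X := Real.rpow_le_rpow_of_exponent_le (by norm_num) h1
    have hsize' : (Fintype.card (Cl (n * (2 * k))) : ℝ) + (C.m : ℝ) ≤ X := by
      refine hsize.trans (le_of_eq ?_)
      rw [hX]
      congr 1
      push_cast
      field_simp
    have hW : ((((2 * n) ^ ((K + 1) * (2 * d₀) + 1)) : ℕ) : ℝ) ≤ X := by
      exact_mod_cast hN₁ n hnN₁
    have hcard : Fintype.card (Cl n) ≤ Fintype.card (Cl (n * (2 * k))) := by
      apply Fintype.card_le_of_injective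
        (fun c : Cl n => (⟨c.1.map ((Fin.castLEEmb hnn).prodMap (Function.Embedding.refl Bool)),
          by rw [card_map]; exact c.2⟩ : Cl (n * (2 * k))))
      intro a b hab
      have := congrArg Subtype.val hab
      exact Subtype.ext (map_injective _ this)
    have g3' : (C'.m : ℝ) ≤ (C.m : ℝ) + (Fintype.card (Cl (n * (2 * k))) : ℝ) *
        ((((2 * n) ^ ((K + 1) * (2 * d₀))) : ℕ) : ℝ) := by
      rw [← pow_mul] at g3
      exact_mod_cast g3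
    have hcard' : (Fintype.card (Cl n) : ℝ) ≤ (Fintype.card (Cl (n * (2 * k))) : ℝ) := by
      exact_mod_cast hcard
    set W : ℝ := ((((2 * n) ^ ((K + 1) * (2 * d₀))) : ℕ) : ℝ) with hWd
    have hW1 : (1 : ℝ) ≤ W := by
      have : 1 ≤ (2 * n) ^ ((K + 1) * (2 * d₀)) := Nat.one_le_pow _ _ (by omega)
      rw [hWd]
      exact_mod_cast this
    have hW2 : 2 * W ≤ X := by
      have h1 : 2 * (2 * n) ^ ((K + 1) * (2 * d₀)) ≤ (2 * n) ^ ((K + 1) * (2 * d₀) + 1) := by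
        rw [pow_succ, mul_comm]
        exact Nat.mul_le_mul_left _ (by omega)
      have h2 : ((2 * (2 * n) ^ ((K + 1) * (2 * d₀)) : ℕ) : ℝ) ≤
          (((2 * n) ^ ((K + 1) * (2 * d₀) + 1) : ℕ) : ℝ) := by exact_mod_cast h1
      have h3 : ((2 * (2 * n) ^ ((K + 1) * (2 * d₀)) : ℕ) : ℝ) = 2 * W := by
        rw [hWd]; push_cast; ring
      rw [← h3]
      exact h2.trans hW
    set L : ℝ := (Fintype.card (Cl (n * (2 * k))) : ℝ) with hL
    set M : ℝ := (C.m : ℝ) with hM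
    have hM0 : 0 ≤ M := Nat.cast_nonneg _
    have hL0 : 0 ≤ L := Nat.cast_nonneg _
    have e1 : (2 : ℝ) ^ (δ * (n : ℝ)) = (X * X) * (X * X) := by
      rw [hX, ← Real.rpow_add (by norm_num), ← Real.rpow_add (by norm_num)]
      congr 1
      ring
    rw [e1]
    have e2 : L + (M + L * W) ≤ 2 * W * (L + M) := by nlinarith
    have e3 : 2 * W * (L + M) ≤ X * X := by
      apply mul_le_mul hW2 hsize' (by linarith) (by linarith)
    have e5 : (1 : ℝ) ≤ X * X := by nlinarith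
    have e4 : X * X ≤ (X * X) * (X * X) := le_mul_of_one_le_right (by linarith) e5
    linarith
  · rw [g4, hacc (Tov k hk x) (hT1 n k hk x hx), hT2 n k hk x hx]

theorem Hyp3_to_H : Hyp3 → HypH := by
  rintro ⟨δ, hδ, h⟩
  refine ⟨δ, hδ, fun d N₀ => ?_⟩
  obtain ⟨n, h1, h2, h3⟩ := h d N₀
  exact ⟨n, h1, h2, fun ⟨C, g1, g2, g3, g4⟩ => h3 ⟨C, g1, g2, g3, fun x _ => g4 x⟩⟩

theorem H_iff_sparse : HypH ↔ ∃ δ : ℝ, 0 < δ ∧ ∃ k : ℕ, SparseHyp δ k :=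
  Pool.Agent.J4H17.SP.t_ASM t_SOUND Pool.Agent.J4H57.SP.t_DEG t_COMPL
    Pool.Agent.J4H57.SP.t_CNT Pool.Agent.J4H87.SP.t_ACP Pool.Agent.J4H21.SP.t_COMP

theorem H_iff_Hyp3 : HypH ↔ Hyp3 :=
  ⟨fun h => t_T4 t_T1 t_T2 t_T3 t_SUB (H_iff_sparse.1 h), Hyp3_to_H⟩

end Pool.Agent.J4H95.SP
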