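import Pool.Agent.J4H95.SP.Def2

set_option autoImplicit false

namespace Pool.Agent.J4H95.SP

open Finset Pool.Agent.J4H64.SS

theorem rk_lt {n k : ℕ} {x : Cl n → Bool} (hx : Sparse k x) {l : Fin n × Bool} {c : Cl n}
    (hc : x c = true) (hl : l ∈ c.1) : rk x l c < k := by
  refine lt_of_lt_of_le ?_ (hx l)
  unfold rk
  apply card_lt_card
  refine (ssubset_iff_of_subset ?_).2 ⟨c, ?_, ?_⟩
  · intro c' h
    rw [mem_filter] at h ⊢
    exact ⟨h.1, h.2.1, h.2.2.1⟩
  · rw [mem_filter]
    exact ⟨mem_univ _, hc, hl⟩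
  · rw [mem_filter]
    intro h
    exact lt_irrefl _ h.2.2.2

theorem rk_lt_rk {n : ℕ} {x : Cl n → Bool} {l : Fin n × Bool} {c c' : Cl n}
    (hc : x c = true) (hl : l ∈ c.1)
    (h : Fintype.equivFin (Cl n) c < Fintype.equivFin (Cl n) c') : rk x l c < rk x l c' := by
  unfold rk
  apply card_lt_card
  refine (ssubset_iff_of_subset ?_).2 ⟨c, ?_, ?_⟩
  · intro c'' h'
    rw [mem_filter] at h' ⊢
    exact ⟨h'.1, h'.2.1, h'.2.2.1, h'.2.2.2.trans h⟩
  · rw [mem_filter]
    exact ⟨mem_univ _, hc, hl, h⟩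
  · rw [mem_filter]
    intro h'
    exact lt_irrefl _ h'.2.2.2

theorem rk_inj {n : ℕ} {x : Cl n → Bool} {l : Fin n × Bool} {c c' : Cl n}
    (hc : x c = true) (hl : l ∈ c.1) (hc' : x c' = true) (hl' : l ∈ c'.1)
    (h : rk x l c = rk x l c') : c = c' := by
  rcases lt_trichotomy (Fintype.equivFin (Cl n) c) (Fintype.equivFin (Cl n) c') with h1 | h1 | h1
  · have := rk_lt_rk hc hl h1
    omega
  · exact (Fintype.equivFin (Cl n)).injective h1
  · have := rk_lt_rk hc' hl' h1
    omega

theorem slot_inj {k : ℕ} (hk : 1 ≤ k) {b b' : Bool} {j j' : ℕ} (hj : j < k) (hj' : j' < k)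
    (h : slot k hk b j = slot k hk b' j') : b = b' ∧ j = j' := by
  have h1 := congrArg Fin.val h
  simp only [slot] at h1
  cases b <;> cases b' <;> simp at h1 ⊢ <;> omega

theorem nxt_inj {k : ℕ} : Function.Injective (nxt (k := k)) := by
  intro t s h
  have h1 := congrArg Fin.val h
  simp only [nxt] at h1
  have ht := t.2
  have hs := s.2
  apply Fin.ext
  have e : ∀ a : ℕ, a < 2 * k → (a + 1) % (2 * k) = if a + 1 = 2 * k then 0 else a + 1 := by
    intro a ha
    split_ifs with h2
    · rw [h2, Nat.mod_self]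
    · exact Nat.mod_eq_of_lt (by omega)
  rw [e _ ht, e _ hs] at h1
  split_ifs at h1 <;> omega

theorem t_T1 : S_T1 := by
  classical
  intro n k hk x hx v'
  obtain ⟨⟨v, t⟩, rfl⟩ := finProdFinEquiv.surjective v'
  have hcp : ∀ (u : Fin n) (s : Fin (2 * k)), cp k u s = finProdFinEquiv (v, t) → u = v ∧ s = t := by
    intro u s h
    have := finProdFinEquiv.injective h
    simpa using this
  set F := univ.filter (fun c : Cl (n * (2 * k)) => Tov k hk x c = true ∧
    ∃ b, (finProdFinEquiv (v, t), b) ∈ c.1) with hF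
  -- the two parts
  set A : Finset (Finset (Fin (n * (2 * k)) × Bool)) :=
    insert (cyc k v t) ((univ.filter (fun s : Fin (2 * k) => nxt s = t)).image (fun s => cyc k v s))
    with hA
  set B : Finset (Finset (Fin (n * (2 * k)) × Bool)) :=
    (univ.filter (fun c : Cl n => x c = true ∧
      ∃ b, (v, b) ∈ c.1 ∧ slot k hk b (rk x (v, b) c) = t)).image (fun c => img k hk x c) with hB
  have hA2 : A.card ≤ 2 := by
    refine (card_insert_le _ _).trans ?_
    have : ((univ.filter (fun s : Fin (2 * k) => nxt s = t)).image (fun s => cyc k v s)).card ≤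
        1 := by
      refine card_image_le.trans ?_
      rw [card_le_one]
      intro a ha b hb
      rw [mem_filter] at ha hb
      exact nxt_inj (ha.2.trans hb.2.symm)
    omega
  have hB1 : B.card ≤ 1 := by
    refine card_image_le.trans ?_
    rw [card_le_one]
    intro c hc c' hc'
    rw [mem_filter] at hc hc'
    obtain ⟨_, h1, b, h2, h3⟩ := hc
    obtain ⟨_, h1', b', h2', h3'⟩ := hc'
    obtain ⟨rfl, h5⟩ := slot_inj hk (rk_lt hx h1 h2) (rk_lt hx h1' h2') (h3.trans h3'.symm)
    exact rk_inj h1 h2 h1' h2' h5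
  have hsub : F.image Subtype.val ⊆ A ∪ B := by
    intro q hq
    rw [mem_image] at hq
    obtain ⟨c, hc, rfl⟩ := hq
    rw [hF, mem_filter] at hc
    obtain ⟨_, h1, b, hb⟩ := hc
    simp only [Tov, decide_eq_true_eq] at h1
    rw [mem_union]
    rcases h1 with ⟨u, s, h1⟩ | ⟨c', hc', h1⟩
    · left
      rw [h1] at hb ⊢
      simp only [cyc, mem_insert, mem_singleton, Prod.mk.injEq] at hb
      rcases hb with ⟨hb, _⟩ | ⟨hb, _⟩
      · obtain ⟨rfl, rfl⟩ := hcp u s hb.symm
        exact mem_insert_self _ _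
      · obtain ⟨rfl, h2⟩ := hcp u (nxt s) hb.symm
        rw [hA]
        refine mem_insert_of_mem (mem_image.2 ⟨s, ?_, rfl⟩)
        rw [mem_filter]
        exact ⟨mem_univ _, h2⟩
    · right
      rw [h1] at hb ⊢
      simp only [img, mem_image, Prod.mk.injEq] at hb
      obtain ⟨l, hl, h2, h3⟩ := hb
      obtain ⟨h4, h5⟩ := hcp _ _ h2
      rw [hB]
      refine mem_image.2 ⟨c', ?_, rfl⟩
      rw [mem_filter]
      obtain ⟨l1, l2⟩ := l
      simp only at h2 h3 h4 h5
      subst h4 h3
      exact ⟨mem_univ _, hc', l2, hl, h5⟩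
  calc F.card = (F.image Subtype.val).card := (card_image_of_injective _ Subtype.val_injective).symm
    _ ≤ (A ∪ B).card := card_le_card hsub
    _ ≤ A.card + B.card := card_union_le _ _
    _ ≤ 3 := by omega

end Pool.Agent.J4H95.SP
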