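import Pool.Agent.J4H95.SP.Sound

set_option autoImplicit false

namespace Pool.Agent.J4H95.SP

open Finset Pool.Agent.J4H64.SS

section
variable {V : Type} [DecidableEq V]

theorem W_mono {Z Z' : Finset V} (h : Z ⊆ Z') {Φ : Finset V → Prop} {u v : V}
    (hw : W Z Φ u v) : W Z' Φ u v := by
  obtain ⟨h1, h2⟩ := hw
  refine ⟨h1, ?_⟩
  rcases h2 with h2 | ⟨l, hl, h3⟩
  · exact Or.inl h2
  · exact Or.inr ⟨l, h hl, h3⟩

theorem U_mono {Z Z' : Finset V} (h : Z ⊆ Z') {Φ : Finset V → Prop} {u : V}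
    (hu : U Z Φ u) : U Z' Φ u := by
  rcases hu with hu | ⟨l, hl, h3⟩
  · exact Or.inl hu
  · exact Or.inr ⟨l, h hl, W_mono h h3⟩

theorem W_hit {Z T : Finset V} {Φ : Finset V → Prop} (hT : Hits T Φ) (hZ : ∀ z ∈ Z, z ∉ T)
    {u v : V} (hw : W Z Φ u v) : u ∈ T ∨ v ∈ T := by
  obtain ⟨h1, h2⟩ := hw
  rcases h2 with h2 | ⟨l, hl, h3, h4, h5⟩
  · obtain ⟨w, hw, hwT⟩ := hT _ h2
    rw [mem_insert, mem_singleton] at hw
    rcases hw with rfl | rfl
    · exact Or.inl hwT
    · exact Or.inr hwT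
  · obtain ⟨w, hw, hwT⟩ := hT _ h5
    rw [mem_insert, mem_insert, mem_singleton] at hw
    rcases hw with rfl | rfl | rfl
    · exact absurd hwT (hZ _ hl)
    · exact Or.inl hwT
    · exact Or.inr hwT

theorem U_hit {Z T : Finset V} {Φ : Finset V → Prop} (hT : Hits T Φ) (hZ : ∀ z ∈ Z, z ∉ T)
    {u : V} (hu : U Z Φ u) : u ∈ T := by
  rcases hu with hu | ⟨l, hl, h3⟩
  · obtain ⟨w, hw, hwT⟩ := hT _ hu
    rw [mem_singleton] at hw
    rwa [hw] at hwT
  · rcases W_hit hT hZ h3 with h | h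
    · exact absurd h (hZ _ hl)
    · exact h

open Classical in
/-- the number of forced elements -/
noncomputable def NU [Fintype V] (Z : Finset V) (Φ : Finset V → Prop) : ℕ :=
  (univ.filter (fun u => U Z Φ u)).card

/-- pairs of `W Z'` off `U Z` -/
def Good (Z Z' : Finset V) (Φ : Finset V → Prop) (M : Finset (Finset V)) : Prop :=
  ∀ p ∈ M, ∃ u v, p = {u, v} ∧ W Z' Φ u v ∧ ¬ U Z Φ u ∧ ¬ U Z Φ v

/-- maximum degree -/
def Deg (b : ℕ) (M : Finset (Finset V)) : Prop := ∀ v, (M.filter (fun p => v ∈ p)).card ≤ b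

theorem shrink [Fintype V] {b : ℕ} {Z Z' : Finset V} (hZ : Z ⊆ Z') {Φ : Finset V → Prop}
    {M : Finset (Finset V)} (hM : Good Z Z' Φ M) (hD : Deg b M) :
    ∃ M' : Finset (Finset V), Good Z' Z' Φ M' ∧ Deg b M' ∧
      M.card + b * NU Z Φ ≤ M'.card + b * NU Z' Φ := by
  classical
  refine ⟨M.filter (fun p => ∀ u ∈ p, ¬ U Z' Φ u), ?_, ?_, ?_⟩
  · intro p hp
    rw [mem_filter] at hp
    obtain ⟨u, v, rfl, h1, h2, h3⟩ := hM p hp.1
    exact ⟨u, v, rfl, h1, hp.2 u (by simp), hp.2 v (by simp)⟩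
  · intro v
    refine le_trans (card_le_card ?_) (hD v)
    exact filter_subset_filter _ (filter_subset _ _)
  · -- removed edges
    set D := (univ.filter (fun u => U Z' Φ u)) \ (univ.filter (fun u => U Z Φ u)) with hDdef
    have hcard : NU Z' Φ = NU Z Φ + D.card := by
      unfold NU
      have hsub : (univ.filter (fun u => U Z Φ u)) ⊆ (univ.filter (fun u => U Z' Φ u)) := by
        intro u hu
        rw [mem_filter] at hu ⊢
        exact ⟨hu.1, U_mono hZ hu.2⟩
      have := card_sdiff_add_card_eq_card hsub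
      rw [hDdef]
      omega
    have hrem : (M.filter (fun p => ¬ ∀ u ∈ p, ¬ U Z' Φ u)).card ≤ D.card * b := by
      have hsub : M.filter (fun p => ¬ ∀ u ∈ p, ¬ U Z' Φ u) ⊆
          D.biUnion (fun v => M.filter (fun p => v ∈ p)) := by
        intro p hp
        rw [mem_filter] at hp
        obtain ⟨hpM, hp2⟩ := hp
        push Not at hp2
        obtain ⟨w, hwp, hwU⟩ := hp2
        rw [mem_biUnion]
        refine ⟨w, ?_, ?_⟩
        · rw [hDdef, mem_sdiff, mem_filter, mem_filter]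
          refine ⟨⟨mem_univ _, hwU⟩, fun h => ?_⟩
          obtain ⟨u, v, rfl, _, h2, h3⟩ := hM p hpM
          rw [mem_insert, mem_singleton] at hwp
          rcases hwp with rfl | rfl
          · exact h2 h.2
          · exact h3 h.2
        · rw [mem_filter]
          exact ⟨hpM, hwp⟩
      refine (card_le_card hsub).trans ?_
      refine card_biUnion_le_card_mul _ _ _ ?_
      intro v _
      exact hD v
    have hsplit := card_filter_add_card_filter_not (s := M) (fun p => ∀ u ∈ p, ¬ U Z' Φ u)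
    rw [hcard]
    have : b * (NU Z Φ + D.card) = b * NU Z Φ + D.card * b := by ring
    omega

/-- the invariant -/
def Inv [Fintype V] (b c : ℕ) (Φ : Finset V → Prop) (T Z : Finset V) : Prop :=
  (∀ z ∈ Z, z ∉ T) ∧ ∃ (k : ℕ) (M : Finset (Finset V)), Good Z Z Φ M ∧ Deg b M ∧
    c * k ≤ M.card + b * NU Z Φ ∧ b * Z.card ≤ NU Z Φ + b * k

theorem NU_le [Fintype V] (Z : Finset V) (Φ : Finset V → Prop) : NU Z Φ ≤ Fintype.card V := by
  unfold NU
  exact card_le_univ _

theorem M_le [Fintype V] {b : ℕ} {Z Z' : Finset V} {Φ : Finset V → Prop} {M : Finset (Finset V)}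
    (hM : Good Z Z' Φ M) (hD : Deg b M) : M.card ≤ Fintype.card V * b := by
  classical
  have hsub : M ⊆ (univ : Finset V).biUnion (fun v => M.filter (fun p => v ∈ p)) := by
    intro p hp
    obtain ⟨u, v, rfl, _⟩ := hM p hp
    rw [mem_biUnion]
    exact ⟨u, mem_univ _, by rw [mem_filter]; exact ⟨hp, by simp⟩⟩
  refine (card_le_card hsub).trans ?_
  rw [← card_univ]
  exact card_biUnion_le_card_mul _ _ _ (fun v _ => hD v)

theorem Inv_bound [Fintype V] {b c : ℕ} {Φ : Finset V → Prop} {T Z : Finset V}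
    (h : Inv b c Φ T Z) : Z.card * (b * c) ≤ (c + 2 * b ^ 2) * Fintype.card V := by
  obtain ⟨_, k, M, h1, h2, h3, h4⟩ := h
  have h5 := NU_le Z Φ
  have h6 := M_le h1 h2
  have e1 : c * (b * Z.card) ≤ c * (NU Z Φ + b * k) := Nat.mul_le_mul_left _ h4
  have e2 : b * (c * k) ≤ b * (M.card + b * NU Z Φ) := Nat.mul_le_mul_left _ h3
  have e3 : c * NU Z Φ ≤ c * Fintype.card V := Nat.mul_le_mul_left _ h5
  have e4 : b * M.card ≤ b * (Fintype.card V * b) := Nat.mul_le_mul_left _ h6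
  have e5 : b * (b * NU Z Φ) ≤ b * (b * Fintype.card V) :=
    Nat.mul_le_mul_left _ (Nat.mul_le_mul_left _ h5)
  nlinarith

theorem Inv_empty [Fintype V] (b c : ℕ) (Φ : Finset V → Prop) (T : Finset V) :
    Inv b c Φ T ∅ := by
  refine ⟨by simp, 0, ∅, ?_, ?_, by simp, by simp⟩
  · intro p hp
    simp at hp
  · intro v
    simp

theorem NU_add [Fintype V] {Z Z' : Finset V} (hZ : Z ⊆ Z') {Φ : Finset V → Prop} {S : Finset V}
    (h1 : ∀ w ∈ S, ¬ U Z Φ w) (h2 : ∀ w ∈ S, U Z' Φ w) : NU Z Φ + S.card ≤ NU Z' Φ := by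
  classical
  unfold NU
  rw [← card_union_of_disjoint]
  · apply card_le_card
    intro w hw
    rw [mem_union, mem_filter] at hw
    rw [mem_filter]
    rcases hw with hw | hw
    · exact ⟨hw.1, U_mono hZ hw.2⟩
    · exact ⟨mem_univ _, h2 w hw⟩
  · rw [disjoint_left]
    intro w hw hwS
    rw [mem_filter] at hw
    exact h1 w hwS hw.2

theorem NU_mono [Fintype V] {Z Z' : Finset V} (hZ : Z ⊆ Z') {Φ : Finset V → Prop} :
    NU Z Φ ≤ NU Z' Φ := by
  have := NU_add hZ (Φ := Φ) (S := ∅) (by simp) (by simp)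
  simpa using this

theorem Good_mono {Z Z' : Finset V} (hZ : Z ⊆ Z') {Φ : Finset V → Prop} {M : Finset (Finset V)}
    (hM : Good Z Z Φ M) : Good Z Z' Φ M := by
  intro p hp
  obtain ⟨u, v, rfl, h1, h2, h3⟩ := hM p hp
  exact ⟨u, v, rfl, W_mono hZ h1, h2, h3⟩

/-- first kind of step -/
theorem step_b [Fintype V] {b c : ℕ} (hb : 1 ≤ b) {Φ : Finset V → Prop} {T Z : Finset V}
    (hI : Inv b c Φ T Z) {v : V} (hv : v ∉ T) {S : Finset V} (hS : S.card = b)
    (h : ∀ w ∈ S, W Z Φ v w ∧ ¬ U Z Φ w) : ∃ Z' : Finset V, Inv b c Φ T Z' ∧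
      Z.card < Z'.card := by
  obtain ⟨h1, k, M, h2, h3, h4, h5⟩ := hI
  have hvZ : v ∉ Z := by
    intro hvZ
    have : S.Nonempty := by
      rw [← card_pos]; omega
    obtain ⟨w, hw⟩ := this
    exact (h w hw).2 (Or.inr ⟨v, hvZ, (h w hw).1⟩)
  have hsub : Z ⊆ insert v Z := subset_insert _ _
  obtain ⟨M', g1, g2, g3⟩ := shrink hsub (Good_mono hsub h2) h3
  have g4 : NU Z Φ + S.card ≤ NU (insert v Z) Φ := NU_add hsub (fun w hw => (h w hw).2)
    (fun w hw => Or.inr ⟨v, mem_insert_self _ _, W_mono hsub (h w hw).1⟩)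
  have g5 : (insert v Z).card = Z.card + 1 := card_insert_of_notMem hvZ
  refine ⟨insert v Z, ⟨?_, k, M', g1, g2, by omega, ?_⟩, by omega⟩
  · intro z hz
    rw [mem_insert] at hz
    rcases hz with rfl | hz
    · exact hv
    · exact h1 z hz
  · rw [g5, Nat.mul_add]
    omega

/-- third kind of step -/
theorem step_d [Fintype V] {b c : ℕ} (hb : 1 ≤ b) (hbc : b ≤ c) {Φ : Finset V → Prop}
    {T Z : Finset V} (hI : Inv b c Φ T Z) {u v : V} (hu : u ∉ T) (hv : v ∉ T) (huv : u ≠ v)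
    {S : Finset V} (hS : S.card = 2 * c)
    (h : ∀ w ∈ S, T2 b c Z Φ {u, v, w}) : ∃ Z' : Finset V, Inv b c Φ T Z' ∧
      Z.card < Z'.card := by
  obtain ⟨h1, k, M, h2, h3, h4, h5⟩ := hI
  have hne : ∀ w ∈ S, w ≠ u ∧ w ≠ v := by
    intro w hw
    have hc := (h w hw).1
    constructor
    · rintro rfl
      have : ({w, v, w} : Finset V) = {w, v} := by
        ext z; simp only [mem_insert, mem_singleton]; tauto
      rw [this] at hc
      have := card_le_two (a := w) (b := v)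
      omega
    · rintro rfl
      have : ({u, w, w} : Finset V) = {u, w} := by
        ext z; simp only [mem_insert, mem_singleton]; tauto
      rw [this] at hc
      have := card_le_two (a := u) (b := w)
      omega
  have hnU : ∀ w ∈ S, ¬ U Z Φ w := fun w hw hU =>
    (h w hw).2.2.1 w (by simp) (Or.inl (Or.inl hU))
  have hUU : ∀ Z' : Finset V, u ∈ Z' → v ∈ Z' → ∀ w ∈ S, U Z' Φ w := by
    intro Z' hu' hv' w hw
    refine Or.inr ⟨v, hv', (hne w hw).2.symm, Or.inr ⟨u, hu', huv, (hne w hw).1.symm, ?_⟩⟩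
    exact (h w hw).2.1
  have hnot : ¬ (u ∈ Z ∧ v ∈ Z) := by
    rintro ⟨ha, hb'⟩
    have : S.Nonempty := by
      rw [← card_pos]; omega
    obtain ⟨w, hw⟩ := this
    exact hnU w hw (hUU Z ha hb' w hw)
  set Z' : Finset V := insert u (insert v Z) with hZ'
  have hsub : Z ⊆ Z' := (subset_insert _ _).trans (subset_insert _ _)
  obtain ⟨M', g1, g2, g3⟩ := shrink hsub (Good_mono hsub h2) h3
  have g4 : NU Z Φ + S.card ≤ NU Z' Φ := NU_add hsub hnU
    (hUU Z' (mem_insert_self _ _) (mem_insert_of_mem (mem_insert_self _ _)))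
  have g5 : Z'.card ≤ Z.card + 2 := by
    rw [hZ']
    have e1 := card_insert_le u (insert v Z)
    have e2 := card_insert_le v Z
    omega
  have g6 : Z.card < Z'.card := by
    apply card_lt_card
    refine (ssubset_iff_subset_ne).2 ⟨hsub, fun he => hnot ?_⟩
    rw [he]
    exact ⟨mem_insert_self _ _, mem_insert_of_mem (mem_insert_self _ _)⟩
  refine ⟨Z', ⟨?_, k, M', g1, g2, by omega, ?_⟩, g6⟩
  · intro z hz
    rw [hZ', mem_insert, mem_insert] at hz
    rcases hz with rfl | rfl | hz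
    · exact hu
    · exact hv
    · exact h1 z hz
  · have : b * Z'.card ≤ b * Z.card + b * 2 := by
      rw [← Nat.mul_add]
      exact Nat.mul_le_mul_left _ g5
    omega

/-- degrees in `W` outside `U` of the elements off `U1` -/
theorem deg_lt {b : ℕ} (hb : 1 ≤ b) {Z : Finset V} {Φ : Finset V → Prop}
    {M : Finset (Finset V)} (hM : Good Z Z Φ M) {v : V} (hv : ¬ U1 b Z Φ v) :
    (M.filter (fun p => v ∈ p)).card < b := by
  classical
  by_contra hcon
  push Not at hcon
  -- the other ends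
  have hex : ∀ p ∈ M.filter (fun p => v ∈ p), ∃ w, p = {v, w} ∧ W Z Φ v w ∧ ¬ U Z Φ w := by
    intro p hp
    rw [mem_filter] at hp
    obtain ⟨x, y, rfl, h1, h2, h3⟩ := hM p hp.1
    have hvp := hp.2
    rw [mem_insert, mem_singleton] at hvp
    rcases hvp with rfl | rfl
    · exact ⟨y, rfl, h1, h3⟩
    · exact ⟨x, pair_comm _ _, W_symm h1, h2⟩
  haveI : Nonempty V := ⟨v⟩
  choose! g hg using hex
  have hinj : Set.InjOn g (M.filter (fun p => v ∈ p) : Finset (Finset V)) := by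
    intro p hp q hq hpq
    rw [mem_coe] at hp hq
    rw [(hg p hp).1, (hg q hq).1, hpq]
  have hcard : ((M.filter (fun p => v ∈ p)).image g).card =
      (M.filter (fun p => v ∈ p)).card := card_image_of_injOn hinj
  obtain ⟨S, hS, hSc⟩ := exists_subset_card_eq (s := (M.filter (fun p => v ∈ p)).image g)
    (n := b) (by rw [hcard]; exact hcon)
  refine hv (Or.inr ⟨S, hSc, fun w hw => ?_⟩)
  have hw' := hS hw
  rw [mem_image] at hw'
  obtain ⟨p, hp, rfl⟩ := hw'
  exact (hg p hp).2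

/-- second kind of step -/
theorem step_c [Fintype V] {b c : ℕ} (hb : 1 ≤ b) (hbc : b ≤ c) {Φ : Finset V → Prop}
    {T Z : Finset V} (hI : Inv b c Φ T Z) {l : V} (hl : l ∉ T)
    {f : Fin c × Bool → V} (hf : Function.Injective f)
    (h : ∀ i, l ≠ f (i, false) ∧ l ≠ f (i, true) ∧ Φ {l, f (i, false), f (i, true)} ∧
      ¬ U1 b Z Φ (f (i, false)) ∧ ¬ U1 b Z Φ (f (i, true)) ∧
      ¬ W Z Φ (f (i, false)) (f (i, true))) : ∃ Z' : Finset V, Inv b c Φ T Z' ∧
      Z.card < Z'.card := by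
  classical
  obtain ⟨h1, k, M, h2, h3, h4, h5⟩ := hI
  have hne : ∀ i, f (i, false) ≠ f (i, true) := by
    intro i he
    have := hf he
    simp at this
  have hlZ : l ∉ Z := by
    intro hlZ
    have hc : 0 < c := by omega
    obtain ⟨g1, g2, g3, _, _, g6⟩ := h ⟨0, hc⟩
    exact g6 ⟨hne _, Or.inr ⟨l, hlZ, g1, g2, g3⟩⟩
  have hsub : Z ⊆ insert l Z := subset_insert _ _
  let P : Fin c → Finset V := fun i => {f (i, false), f (i, true)}
  have hPmem : ∀ i v, v ∈ P i ↔ v = f (i, false) ∨ v = f (i, true) := by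
    intro i v
    simp [P]
  have hPuniq : ∀ i j v, v ∈ P i → v ∈ P j → i = j := by
    intro i j v hi hj
    rw [hPmem] at hi hj
    rcases hi with rfl | rfl <;> rcases hj with hj | hj <;>
      · have := hf hj
        simp at this
        try exact this
  have hPinj : Function.Injective P := by
    intro i j hij
    refine hPuniq i j (f (i, false)) (by rw [hPmem]; exact Or.inl rfl) ?_
    rw [← hij, hPmem]
    exact Or.inl rfl
  have hPW : ∀ i, P i ∉ M := by
    intro i hi
    obtain ⟨u, v, he, g1, _, _⟩ := h2 _ hi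
    obtain ⟨_, _, _, _, _, g6⟩ := h i
    have hu : u ∈ P i := by rw [he]; simp
    have hv : v ∈ P i := by rw [he]; simp
    rw [hPmem] at hu hv
    rcases hu with rfl | rfl <;> rcases hv with rfl | rfl
    · exact g1.1 rfl
    · exact g6 g1
    · exact g6 (W_symm g1)
    · exact g1.1 rfl
  set N : Finset (Finset V) := univ.image P with hN
  have hNc : N.card = c := by
    rw [hN, card_image_of_injective _ hPinj, card_univ, Fintype.card_fin]
  have hdisj : Disjoint M N := by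
    rw [disjoint_left]
    intro p hp hpN
    rw [hN, mem_image] at hpN
    obtain ⟨i, _, rfl⟩ := hpN
    exact hPW i hp
  have hG : Good Z (insert l Z) Φ (M ∪ N) := by
    intro p hp
    rw [mem_union] at hp
    rcases hp with hp | hp
    · exact Good_mono hsub h2 p hp
    · rw [hN, mem_image] at hp
      obtain ⟨i, _, rfl⟩ := hp
      obtain ⟨g1, g2, g3, g4, g5, g6⟩ := h i
      exact ⟨f (i, false), f (i, true), rfl,
        ⟨hne i, Or.inr ⟨l, mem_insert_self _ _, g1, g2, g3⟩⟩,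
        fun hU => g4 (Or.inl hU), fun hU => g5 (Or.inl hU)⟩
  have hD : Deg b (M ∪ N) := by
    intro v
    rw [filter_union]
    by_cases hv : ∃ i, v ∈ P i
    · obtain ⟨i, hi⟩ := hv
      have hv1 : ¬ U1 b Z Φ v := by
        rw [hPmem] at hi
        obtain ⟨_, _, _, g4, g5, _⟩ := h i
        rcases hi with rfl | rfl
        · exact g4
        · exact g5
      have e1 := deg_lt hb h2 hv1
      have e2 : (N.filter (fun p => v ∈ p)).card ≤ 1 := by
        rw [card_le_one]
        intro p hp q hq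
        rw [mem_filter, hN, mem_image] at hp hq
        obtain ⟨⟨j, _, rfl⟩, hj⟩ := hp
        obtain ⟨⟨j', _, rfl⟩, hj'⟩ := hq
        rw [hPuniq j j' v hj hj']
      have e3 := card_union_le (M.filter (fun p => v ∈ p)) (N.filter (fun p => v ∈ p))
      omega
    · have : N.filter (fun p => v ∈ p) = ∅ := by
        rw [filter_eq_empty_iff]
        intro p hp hvp
        rw [hN, mem_image] at hp
        obtain ⟨i, _, rfl⟩ := hp
        exact hv ⟨i, hvp⟩
      rw [this, union_empty]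
      exact h3 v
  obtain ⟨M', g1, g2, g3⟩ := shrink hsub hG hD
  rw [card_union_of_disjoint hdisj, hNc] at g3
  have g4 := NU_mono hsub (Φ := Φ)
  have g5 : (insert l Z).card = Z.card + 1 := card_insert_of_notMem hlZ
  refine ⟨insert l Z, ⟨?_, k + 1, M', g1, g2, ?_, ?_⟩, by omega⟩
  · intro z hz
    rw [mem_insert] at hz
    rcases hz with rfl | hz
    · exact hl
    · exact h1 z hz
  · rw [Nat.mul_add]
    omega
  · rw [g5, Nat.mul_add, Nat.mul_add]
    omega

theorem t_COMPL : S_COMPL := by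
  intro V _ _ b c hb hbc Φ T hT
  classical
  obtain ⟨Z, hZ, hmax⟩ := exists_max_image (univ.filter (fun Z : Finset V => Inv b c Φ T Z))
    (fun Z => Z.card) ⟨∅, by rw [mem_filter]; exact ⟨mem_univ _, Inv_empty b c Φ T⟩⟩
  rw [mem_filter] at hZ
  have hI := hZ.2
  have hno : ¬ ∃ Z' : Finset V, Inv b c Φ T Z' ∧ Z.card < Z'.card := by
    rintro ⟨Z', h1, h2⟩
    have := hmax Z' (by rw [mem_filter]; exact ⟨mem_univ _, h1⟩)
    omega
  refine ⟨Z, Inv_bound hI, ?_⟩
  have hU : ∀ u, U Z Φ u → u ∈ T := fun u hu => U_hit hT hI.1 hu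
  have hU1 : ∀ u, U1 b Z Φ u → u ∈ T := by
    intro u hu
    rcases hu with hu | ⟨S, hS, h⟩
    · exact hU u hu
    · by_contra hcon
      exact hno (step_b hb hI hcon hS h)
  have hU2 : ∀ u, U2 b c Z Φ u → u ∈ T := by
    intro u hu
    rcases hu with hu | ⟨f, hf, h⟩
    · exact hU1 u hu
    · by_contra hcon
      exact hno (step_c hb hbc hI hcon hf h)
  have hQ : ∀ u v, Q b c Z Φ u v → u ∈ T ∨ v ∈ T := by
    intro u v hq
    obtain ⟨huv, S, hS, h⟩ := hq
    by_contra hcon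
    push Not at hcon
    exact hno (step_d hb hbc hI hcon.1 hcon.2 huv hS h)
  intro e he
  rcases he with ⟨rfl, he⟩ | ⟨u, rfl, hu⟩ | ⟨u, v, rfl, h, _, _⟩ | ⟨ht, _⟩
  · exact hT ∅ he
  · exact ⟨u, by simp, hU2 u hu⟩
  · have : u ∈ T ∨ v ∈ T := by
      rcases h with h | h
      · exact W_hit hT hI.1 h
      · exact hQ u v h
    rcases this with h | h
    · exact ⟨u, by simp, h⟩
    · exact ⟨v, by simp, h⟩
  · exact hT e ht.2.1

end

end Pool.Agent.J4H95.SP
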