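import Pool.Agent.J4H64.SS.Equiv

set_option autoImplicit false

/-! Sparsification of 3-CNFs by constant-depth circuits: definitions and the statements of the
pieces. -/

namespace Pool.Agent.J4H95.SP

open Finset Pool.Agent.J4H64.SS

section Comb

variable {V : Type} [DecidableEq V]

/-- `T` meets every edge of `Φ`. -/
def Hits (T : Finset V) (Φ : Finset V → Prop) : Prop := ∀ e, Φ e → ∃ v ∈ e, v ∈ T

/-- two-element edges: edges of `Φ` and links of the elements of `Z` -/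
def W (Z : Finset V) (Φ : Finset V → Prop) (u v : V) : Prop :=
  u ≠ v ∧ (Φ {u, v} ∨ ∃ l ∈ Z, l ≠ u ∧ l ≠ v ∧ Φ {l, u, v})

/-- forced elements -/
def U (Z : Finset V) (Φ : Finset V → Prop) (u : V) : Prop :=
  Φ {u} ∨ ∃ l ∈ Z, W Z Φ l u

/-- forced or heavy in `W` -/
def U1 (b : ℕ) (Z : Finset V) (Φ : Finset V → Prop) (u : V) : Prop :=
  U Z Φ u ∨ ∃ S : Finset V, S.card = b ∧ ∀ v ∈ S, W Z Φ u v ∧ ¬ U Z Φ v

/-- forced, heavy, or with a large matching in the residual link -/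
def U2 (b c : ℕ) (Z : Finset V) (Φ : Finset V → Prop) (l : V) : Prop :=
  U1 b Z Φ l ∨ ∃ f : Fin c × Bool → V, Function.Injective f ∧
    ∀ i, l ≠ f (i, false) ∧ l ≠ f (i, true) ∧ Φ {l, f (i, false), f (i, true)} ∧
      ¬ U1 b Z Φ (f (i, false)) ∧ ¬ U1 b Z Φ (f (i, true)) ∧
      ¬ W Z Φ (f (i, false)) (f (i, true))

/-- remaining three-element edges -/
def T2 (b c : ℕ) (Z : Finset V) (Φ : Finset V → Prop) (e : Finset V) : Prop :=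
  e.card = 3 ∧ Φ e ∧ (∀ u ∈ e, ¬ U2 b c Z Φ u) ∧ ∀ u ∈ e, ∀ v ∈ e, ¬ W Z Φ u v

/-- heavy pairs -/
def Q (b c : ℕ) (Z : Finset V) (Φ : Finset V → Prop) (u v : V) : Prop :=
  u ≠ v ∧ ∃ S : Finset V, S.card = 2 * c ∧ ∀ w ∈ S, T2 b c Z Φ {u, v, w}

/-- the sparse hypergraph of the branch `Z` -/
def Psi (b c : ℕ) (Z : Finset V) (Φ : Finset V → Prop) (e : Finset V) : Prop :=
  (e = ∅ ∧ Φ ∅) ∨ (∃ u, e = {u} ∧ U2 b c Z Φ u) ∨
  (∃ u v, e = {u, v} ∧ (W Z Φ u v ∨ Q b c Z Φ u v) ∧ ¬ U2 b c Z Φ u ∧ ¬ U2 b c Z Φ v) ∨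
  (T2 b c Z Φ e ∧ ∀ u ∈ e, ∀ v ∈ e, ¬ Q b c Z Φ u v)

end Comb

/-- piece SOUND -/
def S_SOUND : Prop :=
  ∀ (V : Type) [DecidableEq V] (b c : ℕ) (Z : Finset V) (Φ : Finset V → Prop),
    (∀ e, Φ e → e.card ≤ 3) → ∀ T : Finset V, Hits T (Psi b c Z Φ) → Hits T Φ

/-- piece DEG -/
def S_DEG : Prop :=
  ∀ (V : Type) [Fintype V] [DecidableEq V] (b c : ℕ), 1 ≤ b → 1 ≤ c →
    ∀ (Z : Finset V) (Φ : Finset V → Prop) (l : V) (E : Finset (Finset V)),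
      (∀ e ∈ E, Psi b c Z Φ e ∧ l ∈ e) → E.card ≤ 1 + b + 2 * c + 2 * c * (2 * c)

/-- piece COMPL -/
def S_COMPL : Prop :=
  ∀ (V : Type) [Fintype V] [DecidableEq V] (b c : ℕ), 1 ≤ b → b ≤ c →
    ∀ (Φ : Finset V → Prop) (T : Finset V), Hits T Φ →
      ∃ Z : Finset V, Z.card * (b * c) ≤ (c + 2 * b ^ 2) * Fintype.card V ∧
        Hits T (Psi b c Z Φ)

/-- piece CNT -/
def S_CNT : Prop :=
  ∀ ε : ℝ, 0 < ε → ∃ γ : ℝ, 0 < γ ∧ ∀ (V : Type) [Fintype V] [DecidableEq V],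
    ((univ.filter (fun Z : Finset V => (Z.card : ℝ) ≤ γ * Fintype.card V)).card : ℝ) ≤
      (2 : ℝ) ^ (ε * (Fintype.card V : ℝ))

/-- Functions computed by trees of OR gates of fan-in at most `w` and NOT gates, of depth `d`. -/
inductive AC {I : Type} (w : ℕ) : ℕ → ((I → Bool) → Prop) → Prop
  | inp (d : ℕ) (i : I) : AC w d (fun x => x i = true)
  | neg {d : ℕ} {f : (I → Bool) → Prop} : AC w d f → AC w (d + 1) (fun x => ¬ f x)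
  | ex {d k : ℕ} (f : Fin k → (I → Bool) → Prop) : k ≤ w → (∀ j, AC w d (f j)) →
      AC w (d + 1) (fun x => ∃ j, f j x)

/-- the hypergraph of an indicator vector -/
def Hyp {n : ℕ} (x : Cl n → Bool) (e : Finset (Fin n × Bool)) : Prop :=
  ∃ h : e.card ≤ 3, x ⟨e, h⟩ = true

/-- piece ACP -/
def S_ACP : Prop :=
  ∀ b c : ℕ, 1 ≤ b → 1 ≤ c → ∃ K d₀ : ℕ, ∀ (n : ℕ), 1 ≤ n → ∀ (Z : Finset (Fin n × Bool))
    (q : Cl n), AC ((2 * n) ^ K) d₀ (fun x : Cl n → Bool => Psi b c Z (Hyp x) q.1)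

open Classical in
/-- piece COMP -/
def S_COMP : Prop :=
  ∀ d₀ : ℕ, ∃ d₁ K₁ : ℕ, ∀ (n d w : ℕ) (β : Type) [Fintype β] [Nonempty β] (D : Circ (Cl n)),
    D.WF → D.Depth d → 2 ≤ w → ∀ (F : β → Cl n → (Cl n → Bool) → Prop),
    (∀ β c, AC w d₀ (F β c)) → ∃ C : Circ (Cl n), C.WF ∧ C.Depth (d + d₁) ∧
      C.m ≤ Fintype.card β * (D.m + Fintype.card (Cl n) * w ^ K₁) + 1 ∧
      ∀ x, C.Acc x ↔ ∃ t : β, D.Acc (fun c => decide (F t c x))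

/-- Hypothesis H for 3-CNFs in which every literal occurs in at most `k` clauses, with the
constant `δ`. -/
def SparseHyp (δ : ℝ) (k : ℕ) : Prop :=
  ∀ d N₀ : ℕ, ∃ n : ℕ, N₀ ≤ n ∧ 1 ≤ n ∧
    ¬ ∃ C : Circ (Cl n), C.WF ∧ C.Depth d ∧
      ((Fintype.card (Cl n) : ℝ) + (C.m : ℝ) ≤ (2 : ℝ) ^ (δ * (n : ℝ))) ∧
      ∀ x : Cl n → Bool,
        (∀ l : Fin n × Bool, (univ.filter (fun c : Cl n => x c = true ∧ l ∈ c.1)).card ≤ k) →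
          (C.Acc x ↔ Sat x)

/-- piece ASM -/
def S_ASM : Prop :=
  S_SOUND → S_DEG → S_COMPL → S_CNT → S_ACP → S_COMP →
    (HypH ↔ ∃ δ : ℝ, 0 < δ ∧ ∃ k : ℕ, SparseHyp δ k)

end Pool.Agent.J4H95.SP
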