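import Pool.Agent.J4H95.SP.Def

set_option autoImplicit false

/-! Hypothesis H for 3-CNFs in which every variable occurs in at most three clauses. -/

namespace Pool.Agent.J4H95.SP

open Finset Pool.Agent.J4H64.SS

/-- every variable occurs in at most three clauses -/
def Occ3 {n : ℕ} (x : Cl n → Bool) : Prop :=
  ∀ v : Fin n, (univ.filter (fun c : Cl n => x c = true ∧ ∃ b, (v, b) ∈ c.1)).card ≤ 3

/-- Hypothesis H for 3-CNFs in which every variable occurs in at most three clauses -/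
def Hyp3 : Prop :=
  ∃ δ : ℝ, 0 < δ ∧ ∀ d N₀ : ℕ, ∃ n : ℕ, N₀ ≤ n ∧ 1 ≤ n ∧
    ¬ ∃ C : Circ (Cl n), C.WF ∧ C.Depth d ∧
      ((Fintype.card (Cl n) : ℝ) + (C.m : ℝ) ≤ (2 : ℝ) ^ (δ * (n : ℝ))) ∧
      ∀ x : Cl n → Bool, Occ3 x → (C.Acc x ↔ Sat x)

/-- every literal occurs in at most `k` clauses -/
def Sparse {n : ℕ} (k : ℕ) (x : Cl n → Bool) : Prop :=
  ∀ l : Fin n × Bool, (univ.filter (fun c : Cl n => x c = true ∧ l ∈ c.1)).card ≤ k

/-- rank of the clause `c` among the clauses of `x` containing `l` -/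
noncomputable def rk {n : ℕ} (x : Cl n → Bool) (l : Fin n × Bool) (c : Cl n) : ℕ :=
  (univ.filter (fun c' : Cl n => x c' = true ∧ l ∈ c'.1 ∧
    Fintype.equivFin (Cl n) c' < Fintype.equivFin (Cl n) c)).card

/-- the copy used for the `j`-th occurrence of the literal of sign `b` -/
def slot (k : ℕ) (hk : 1 ≤ k) (b : Bool) (j : ℕ) : Fin (2 * k) :=
  ⟨(if b then k else 0) + min j (k - 1), by split_ifs <;> omega⟩

/-- the copy `t` of the variable `v` -/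
def cp {n : ℕ} (k : ℕ) (v : Fin n) (t : Fin (2 * k)) : Fin (n * (2 * k)) := finProdFinEquiv (v, t)

/-- the next copy -/
def nxt {k : ℕ} (t : Fin (2 * k)) : Fin (2 * k) :=
  ⟨(t.1 + 1) % (2 * k), Nat.mod_lt _ (by have := t.2; omega)⟩

/-- copy `t` implies copy `t + 1` -/
def cyc {n : ℕ} (k : ℕ) (v : Fin n) (t : Fin (2 * k)) : Finset (Fin (n * (2 * k)) × Bool) :=
  {(cp k v t, false), (cp k v (nxt t), true)}

/-- the clause `c` written with copies -/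
noncomputable def img {n : ℕ} (k : ℕ) (hk : 1 ≤ k) (x : Cl n → Bool) (c : Cl n) :
    Finset (Fin (n * (2 * k)) × Bool) :=
  c.1.image (fun l => (cp k l.1 (slot k hk l.2 (rk x l c)), l.2))

open Classical in
/-- the formula with copies -/
noncomputable def Tov {n : ℕ} (k : ℕ) (hk : 1 ≤ k) (x : Cl n → Bool) : Cl (n * (2 * k)) → Bool :=
  fun q => decide ((∃ v t, q.1 = cyc k v t) ∨ ∃ c, x c = true ∧ q.1 = img k hk x c)

/-- piece T1 -/
def S_T1 : Prop :=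
  ∀ (n k : ℕ) (hk : 1 ≤ k) (x : Cl n → Bool), Sparse k x → Occ3 (Tov k hk x)

/-- piece T2 -/
def S_T2 : Prop :=
  ∀ (n k : ℕ) (hk : 1 ≤ k) (x : Cl n → Bool), Sparse k x → (Sat (Tov k hk x) ↔ Sat x)

/-- piece T3 -/
def S_T3 : Prop :=
  ∀ (k : ℕ) (hk : 1 ≤ k), ∃ K d₀ : ℕ, ∀ (n : ℕ), 1 ≤ n → ∀ (q : Cl (n * (2 * k))),
    AC ((2 * n) ^ K) d₀ (fun x : Cl n → Bool => Tov k hk x q = true)

/-- substitution for one circuit, inputs of any type (from `comp` and `tree` of `J4H21.SP.Comp`) -/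
def S_SUB : Prop :=
  ∀ (I J : Type) [Fintype I] [Nonempty I] [Fintype J] (w d d₀ : ℕ) (D : Circ J), 2 ≤ w → D.WF →
    D.Depth d → ∀ F : (I → Bool) → J → Bool, (∀ j, AC w d₀ (fun x => F x j = true)) →
    ∃ C : Circ I, C.WF ∧ C.Depth (d + (d₀ + 1)) ∧
      C.m ≤ D.m + Fintype.card J * w ^ (2 * d₀) ∧ ∀ x, C.Acc x ↔ D.Acc (F x)

/-- piece T4 -/
def S_T4 : Prop :=
  S_T1 → S_T2 → S_T3 → S_SUB → (∃ δ : ℝ, 0 < δ ∧ ∃ k : ℕ, SparseHyp δ k) → Hyp3

end Pool.Agent.J4H95.SP
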