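import Pool.Agent.J4H95.SP.Def

set_option autoImplicit false

namespace Pool.Agent.J4H95.SP

open Finset Pool.Agent.J4H64.SS

section
variable {V : Type} [DecidableEq V]

theorem W_symm {Z : Finset V} {Φ : Finset V → Prop} {u v : V} (h : W Z Φ u v) : W Z Φ v u := by
  obtain ⟨h1, h2⟩ := h
  refine ⟨h1.symm, ?_⟩
  rcases h2 with h2 | ⟨l, hl, h3, h4, h5⟩
  · left
    rwa [Finset.pair_comm]
  · right
    refine ⟨l, hl, h4, h3, ?_⟩
    rwa [Finset.pair_comm v u]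

theorem t_SOUND : S_SOUND := by
  intro V _ b c Z Φ hΦ T hT e he
  by_contra hcon
  push Not at hcon
  have hno : ∀ u ∈ e, ¬ U2 b c Z Φ u := by
    intro u hu h2
    obtain ⟨v, hv, hvT⟩ := hT {u} (Or.inr (Or.inl ⟨u, rfl, h2⟩))
    rw [Finset.mem_singleton] at hv
    subst hv
    exact hcon v hu hvT
  have hnp : ∀ u ∈ e, ∀ v ∈ e, ¬ (W Z Φ u v ∨ Q b c Z Φ u v) := by
    intro u hu v hv h
    obtain ⟨w, hw, hwT⟩ := hT {u, v} (Or.inr (Or.inr (Or.inl ⟨u, v, rfl, h, hno u hu, hno v hv⟩)))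
    rw [Finset.mem_insert, Finset.mem_singleton] at hw
    rcases hw with rfl | rfl
    · exact hcon _ hu hwT
    · exact hcon _ hv hwT
  have h3 := hΦ e he
  have hc : e.card = 0 ∨ e.card = 1 ∨ e.card = 2 ∨ e.card = 3 := by omega
  rcases hc with hc | hc | hc | hc
  · rw [Finset.card_eq_zero] at hc
    subst hc
    obtain ⟨v, hv, _⟩ := hT ∅ (Or.inl ⟨rfl, he⟩)
    simp at hv
  · obtain ⟨u, rfl⟩ := Finset.card_eq_one.1 hc
    exact hno u (by simp) (Or.inl (Or.inl (Or.inl he)))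
  · obtain ⟨u, v, huv, rfl⟩ := Finset.card_eq_two.1 hc
    exact hnp u (by simp) v (by simp) (Or.inl ⟨huv, Or.inl he⟩)
  · have ht : T2 b c Z Φ e := ⟨hc, he, hno, fun u hu v hv h => hnp u hu v hv (Or.inl h)⟩
    obtain ⟨w, hw, hwT⟩ := hT e (Or.inr (Or.inr (Or.inr ⟨ht, fun u hu v hv h =>
      hnp u hu v hv (Or.inr h)⟩)))
    exact hcon w hw hwT

end

end Pool.Agent.J4H95.SP
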